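import Pool.Agent.NH52.SF.Big

/-!
# Finiteness of the polarized integral systems with large image at one prime

`F` is a number field, `n ≥ 1`, `w ≥ 0`, and `S`, `S'` are finite sets of primes. A polarized system
(`PolSystem`) has the properties in the problem of the realisations of a pure motive of rank `n` and
weight `w` over `F` with a lattice: pure good reduction outside `S`, semistable reduction in `S`,
Hodge-Tate weights `≥ 0` at the places above `ℓ`; in addition it has a polarization
`T_ℓ × T_ℓ → ℤ_ℓ(-w)`, which is perfect for `ℓ` outside `S'` (`S'` contains also the small primes, for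
which the theory of Fontaine and Laffaille does not apply to `T_ℓ / ℓ`). The Hodge numbers are
arbitrary, and the systems may be reducible.

Up to isomorphism of the `T_ℓ` for all the primes `ℓ` there are only finitely many polarized systems
with one of the following properties:

1. large image at one prime `ℓ₀` (which may depend on the system): the Lie algebra of the image
   contains all the families of infinitesimal isometries of the polarization (`LargeImage`; for `F = ℚ`
   the Lie algebra of the symplectic or orthogonal group; for other fields `F` this is a condition on
   `V_{ℓ₀}` and its conjugates together);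
2. one tangent vector at one prime `ℓ₀` without isotropic relation between its eigenvalues
   (`GenericTangent`);
3. for every `d` with `0 < 2 d ≤ n` and `w d [F : ℚ]` even and every `ℓ` the Frobenius eigenvalues at the
   places above one completely split prime `p ≠ ℓ` outside `S` have no isotropic relation of size `d`
   (`Generic`).

The determinant of an isotropic stable subspace of `V_ℓ` (or of `T_ℓ / ℓ`) is a character of the
absolute Galois group of `F`, whose transfer to the absolute Galois group of `ℚ` is by Minkowski's
theorem, up to a power, a power of the cyclotomic character; for completely split primes `p` this is an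
isotropic relation between Frobenius eigenvalues. So there are no isotropic stable subspaces for every
`ℓ`, and for almost all `ℓ` modulo `ℓ`, uniformly for the systems with the same Frobenius polynomials at
finitely many places, and the polarization splits everything into orthogonal sums.
-/

set_option autoImplicit false

namespace Pool.Agent.Results.MP_78e9a5_nt.LargeImageAtOnePrime

open Pool.Agent.R390.SF Pool.Agent.R390.SF.IntegralSystem Pool.Agent.NH52.SF NumberField

/-- The systems with the property `C` form finitely many classes up to isomorphism of all the `T_ℓ`. -/
def FinitelyMany {F : SubFld ℚ} {n : ℕ} (C : IntegralSystem F n → Prop) : Prop :=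
  ∃ (m : ℕ) (T : Fin m → IntegralSystem F n), (∀ i, C (T i)) ∧
    ∀ T' : IntegralSystem F n, C T' → ∃ i, IsomorphicOn Set.univ (T i) T'

/-- **Finiteness of the polarized systems with large image at one prime.** The systems may satisfy
any of the three conditions (large image is a special case of a generic tangent vector, and this of
generic Frobenius polynomials). -/
theorem result (F : SubFld ℚ) [FiniteDimensional ℚ F] (n w : ℕ) (hn : 0 < n) (S S' : Finset ℕ) :
    FinitelyMany (fun T : IntegralSystem F n => PolSystem S S' w T ∧
      ((∃ (ℓ : ℕ) (_ : Fact ℓ.Prime), LargeImage w T ℓ) ∨
        (∃ (ℓ : ℕ) (_ : Fact ℓ.Prime), GenericTangent w T ℓ) ∨ Generic S w T)) := by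
  have h1 := gen_finiteness (F := F) hn w S S'
  have h2 : FinitelyMany (fun T : IntegralSystem F n => PolSystem S S' w T ∧ Generic S w T) := by
    obtain ⟨m, T, hT, h⟩ := h1
    exact ⟨m, T, hT, fun T' h' => h T' h'.1 h'.2⟩
  refine finite_sub (C := fun T => PolSystem S S' w T ∧ Generic S w T)
    (C' := fun T => PolSystem S S' w T ∧ ((∃ (ℓ : ℕ) (_ : Fact ℓ.Prime), LargeImage w T ℓ) ∨
        (∃ (ℓ : ℕ) (_ : Fact ℓ.Prime), GenericTangent w T ℓ) ∨ Generic S w T))
    (fun T hT => ⟨hT.1, ?_⟩) h2
  rcases hT.2 with ⟨ℓ, hℓ, h⟩ | ⟨ℓ, hℓ, h⟩ | h
  · exact generic_of_tangent hn hT.1.toGoodSystem (tangent_of_large h)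
  · exact generic_of_tangent hn hT.1.toGoodSystem h
  · exact h

end Pool.Agent.Results.MP_78e9a5_nt.LargeImageAtOnePrime
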