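import Pool.Agent.NH52.MB.Fin
import Pool.Agent.NH52.MB.Lin
import Pool.Agent.NH52.MB.Mf
import Pool.Agent.NH52.MB.TransA

/-!
# Finiteness of the polarized integral systems with multiplicity-free degeneration

`F` is a number field, `n ≥ 1`, `w ≥ 0`, `S` and `S'` are finite sets of primes, `Λ` is a set of primes.
A polarized system (`PolSystem`) has the properties in the problem of the realisations of a pure motive
of rank `n` and weight `w` over `F` with a lattice: pure good reduction outside `S`, semistable
reduction in `S`, Hodge-Tate weights `≥ 0` at the places above `ℓ`; in addition it has a polarization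
`T_ℓ × T_ℓ → ℤ_ℓ(-w)`, which is perfect for `ℓ` outside `S'` (`S'` contains also the small primes, for
which the theory of Fontaine and Laffaille does not apply to `T_ℓ / ℓ`). The Hodge numbers are
arbitrary, and the systems may be reducible.

The monodromy of the systems of the theorem is multiplicity-free (`MultFree`): for each `ℓ` in `Λ` there is
a prime `p ≠ ℓ` in `S` such that at all the places of `F` above `p` a generator of the tame inertia
group acts on `V_ℓ` as a unipotent matrix with pairwise distinct sizes of the Jordan blocks, and the
same holds for `T_ℓ / ℓ` for almost all `ℓ` in `Λ`; if for some `ℓ` in `Λ` there is no such `p` for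
`V_ℓ` it is enough that the Frobenius polynomials have no isotropic relations (`GenericAt`).

Up to isomorphism of the `T_ℓ` for all the primes `ℓ` in `Λ` there are only finitely many such systems.

For a Frobenius element `σ` at such a place and a subspace `U` stable under `σ` and the monodromy,
`det (σ | U) ^ 2 = q ^ (w dim U - s)` with a natural number `s`, and `s > 0` if `U ≠ 0` is isotropic. (The
polarization and the distinct Jordan blocks give the weights of the monodromy filtration.) By
Minkowski's theorem and the purity at the good places the product of these determinants over the places
above `p` is known for stable subspaces, and `s = 0` everywhere. So there are no isotropic stable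
subspaces, and `V_ℓ` is an orthogonal sum of irreducible representations, and the same modulo almost all
`ℓ`. To get exceptional primes which depend only on the isomorphism class of the `V_ℓ` the theorem of
Brauer and Nesbitt is applied to the `T_ℓ / ℓ`.
-/

set_option autoImplicit false

namespace Pool.Agent.Results.MP_78e9a5_nt.MultiplicityFreeDegeneration

open Pool.Agent.R390.SF Pool.Agent.R390.SF.IntegralSystem Pool.Agent.NH52.SF Pool.Agent.NH52.MB NumberField
open Pool.Agent.Y800

/-- The systems with the property `C` form finitely many classes up to isomorphism of the `T_ℓ`, `ℓ` in
`Λ`. -/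
def FinitelyMany {F : SubFld ℚ} {n : ℕ} (Λ : Set ℕ) (C : IntegralSystem F n → Prop) : Prop :=
  ∃ (m : ℕ) (T : Fin m → IntegralSystem F n), (∀ i, C (T i)) ∧
    ∀ T' : IntegralSystem F n, C T' → ∃ i, IsomorphicOn Λ (T i) T'

/-- **Finiteness of the polarized systems with multiplicity-free degeneration.** -/
theorem result (F : SubFld ℚ) [FiniteDimensional ℚ F] (n w : ℕ) (hn : 0 < n) (S S' : Finset ℕ)
    (Λ : Set ℕ) :
    FinitelyMany Λ (fun T : IntegralSystem F n => PolSystem S S' w T ∧ MultFree S w Λ T) :=
  mf_finiteness t_LIN t_MF t_TRANS' hn w S S' Λ

end Pool.Agent.Results.MP_78e9a5_nt.MultiplicityFreeDegeneration
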