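import Pool.Agent.NH56.PA.Fin
import Pool.Agent.NH56.PA.Ss
import Pool.Agent.NH56.PA.Diag
import Pool.Agent.NH56.PA.Chi
import Pool.Agent.NH56.PA.Nd1
import Pool.Agent.NH56.PA.Nd2
import Pool.Agent.NH56.PA.Rad
import Pool.Agent.NH56.PA.Open
import Pool.Agent.NH56.PA.Lag
import Pool.Agent.NH56.PA.Ret
import Pool.Agent.NH56.PA.Avg
import Pool.Agent.NH56.PA.Rss
import Pool.Agent.NH56.PA.Iso

/-!
# Finiteness of the potentially abelian integral systems (motives with complex multiplication)

`F` is a number field, `n ≥ 1`, `w ≥ 0`, `S` is a finite set of primes, `Λ` is a set of primes. An
integral system (`IntegralSystem F n`) consists of representations of the absolute Galois group of `F` on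
`T_ℓ = ℤ_ℓ ^ n` for all the primes `ℓ`, and of Frobenius polynomials with integral coefficients; it is
a `GoodSystem S w` if it has pure good reduction of weight `w` outside `S` (with Frobenius polynomials
independent of `ℓ`), as the realisations of a pure motive of weight `w` with a lattice. Nothing is
assumed at the places above `S`, and there is no condition on Hodge numbers and no polarization.

The systems of the theorem are potentially abelian (`PotAbelian`): `V_ℓ` is semisimple and an open
subgroup of the Galois group, which may depend on the system but not on `ℓ`, acts on `T_ℓ` through an
abelian group, for all `ℓ` in `Λ`. These are the realisations of the motives with potential complex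
multiplication, of any weight and rank over any number field. Up to isomorphism of the `T_ℓ` for all
`ℓ` in `Λ` there are only finitely many such systems.

Proof. By Faltings and the theorem of Jordan and Zassenhaus it is enough to find for one system `T` a
bound `N` such that for all `ℓ > N` in `Λ` all the stable lattices in `V_ℓ` are isomorphic. For an open
normal subgroup `U` which acts through an abelian group let `s(U)` be the largest number of distinct
eigenvalues of infinitely many Frobenius elements in `U`; this does not depend on `ℓ`. Choose `U` with
`s(U)` minimal and a Frobenius element `u` in `U` with `s(U)` distinct eigenvalues. By a theorem of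
B. H. Neumann (a group is not a finite union of cosets of subgroups of infinite index) for each `ℓ` all
elements of `U` act through polynomials in `u`: otherwise some element of `U` would have more
eigenvalues. If `ℓ` does not divide the discriminant of the radical of the Frobenius polynomial of `u`,
nor the index of `U`, and `ℓ > n`, the separability idempotent of the algebra generated by `u` and
averaging over the quotient by `U` give projections of the spaces of matrices onto the spaces of
homomorphisms between stable lattices. So the reductions modulo `ℓ` of the stable lattices are
semisimple, hence isomorphic (Brauer and Nesbitt), and the isomorphisms can be lifted.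
-/

set_option autoImplicit false

namespace Pool.Agent.Results.MP_78e9a5_nt.PotentiallyAbelian

open Pool.Agent.R390.SF Pool.Agent.R390.SF.IntegralSystem Pool.Agent.NH56.PA NumberField

/-- The systems with the property `C` form finitely many classes up to isomorphism of the `T_ℓ`, `ℓ` in
`Λ`. -/
def FinitelyMany {F : SubFld ℚ} {n : ℕ} (Λ : Set ℕ) (C : IntegralSystem F n → Prop) : Prop :=
  ∃ (m : ℕ) (T : Fin m → IntegralSystem F n), (∀ i, C (T i)) ∧
    ∀ T' : IntegralSystem F n, C T' → ∃ i, IsomorphicOn Λ (T i) T'

/-- **Finiteness of the potentially abelian integral systems.** -/
theorem result (F : SubFld ℚ) [FiniteDimensional ℚ F] (n w : ℕ) (hn : 0 < n) (S : Finset ℕ)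
    (Λ : Set ℕ) :
    FinitelyMany Λ (fun T : IntegralSystem F n => T.GoodSystem S w ∧ PotAbelian Λ T) :=
  finiteness t_SS t_DIAG t_CHI t_ND1 t_ND2 t_OPEN t_LAG t_RAD t_RET t_AVG t_RSS t_ISO hn w S Λ

end Pool.Agent.Results.MP_78e9a5_nt.PotentiallyAbelian
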